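import Pool.Agent.Y525.Leaf.Main

/-!
# Leafwise complex cycles need not be superpositions of pseudoholomorphic curves

The definitions are in `Pool/Agent/Y525/Leaf/Defs.lean`. The cycle is the current
`dd^c max (Re z₁, Re z₂, 0)` of the leaf `ℂⁿ × {0}` (in the plane `z₃ = ⋯ = zₙ = 0`): it integrates
two-forms over the complex half lines which foliate the three half hyperplanes
`Re z₁ = 0 ≥ Re z₂`, `Re z₂ = 0 ≥ Re z₁`, `Re z₁ = Re z₂ ≥ 0` of `ℂ²`. A curve that takes part in
a superposition on `U` is contained in these half hyperplanes, so by the identity theorem one of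
`z₁, z₂, z₁ - z₂` is an imaginary constant on it; by the open mapping theorem and properness it
then contains a full disc of a complex line, which leaves the half hyperplanes.
-/

namespace Pool.Agent.Results.MP_03adb9_gt.NotSuperposition

open TopologicalSpace Pool.Agent.Y525.Leaf

/-- For every `n ≥ 2` and `q ≥ 0` there are a foliation of a manifold `M` with leaf dimension `2n`
and codimension `q`, a leafwise complex structure, a `C`-cycle `c` on `M` and a point `x` such that
`c` is on no neighbourhood of `x` a non-negative superposition of pseudoholomorphic curves. -/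
theorem result (n q : ℕ) (hn : 2 ≤ n) :
    ∃ (M : Type) (_ : NormedAddCommGroup M) (_ : NormedSpace ℝ M) (_ : FiniteDimensional ℝ M)
      (𝓕 : FlatLeaves M), Module.finrank ℝ 𝓕.T = 2 * n ∧ Module.finrank ℝ M = 2 * n + q ∧
      ∃ (c : Current (⊤ : Opens M) 2) (x : M), IsCCurrent 𝓕 c ∧ IsCycle c ∧
        ∀ U : Opens M, x ∈ U → ¬ IsSuperposition 𝓕 U c :=
  ⟨Space n q, inferInstance, inferInstance, inferInstance, leaves n q, finrank_leaves n q,
    finrank_Space n q, trop q hn, 0, trop_isCCurrent hn, trop_isCycle hn,
    trop_not_superposition hn⟩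

end Pool.Agent.Results.MP_03adb9_gt.NotSuperposition
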